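import Pool.Agent.W516.MTH.Sv
import Pool.Agent.W516.MTZ.Main
import Pool.Agent.W906.MTZ.TOR

/-!
# Evaluation of the functions on a homogeneous torsor at the comparison isomorphism
-/

set_option autoImplicit false
set_option linter.unusedSectionVars false

namespace Pool.Agent.W516.MTK

open Matrix MvPolynomial Pool.Agent.W516.MTZ Pool.Agent.W516.MTH

variable {m X : Type} [Fintype m] [DecidableEq m] [Fintype X] [DecidableEq X]

/-- The Zariski closure over `ℚ` of the motivic Galois group is a homogeneous torsor. -/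
theorem closure_torsor (M : Motive m X) : ∃ Z : Set (Matrix m m ℂ)ˣ,
    IsTorsor Z ∧ Homogeneous M Z ∧ (M.gp : Set (Matrix m m ℂ)ˣ) ⊆ Z ∧
      ∀ u ∈ Z, ∀ f : MvPolynomial (m × m) ℚ,
        (∀ g ∈ M.gp, aeval (crd ((g : (Matrix m m ℂ)ˣ) : Matrix m m ℂ)) f = 0) →
          aeval (crd (u : Matrix m m ℂ)) f = 0 := by
  obtain ⟨G', hG'⟩ := W410.MTZ.T_CL m M.gp fun σ g hg g' hg' => by
    have h1 : g' = sg σ g := Units.ext hg'
    rw [h1]
    exact sg_mem M σ hg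
  have hmem : ∀ u : (Matrix m m ℂ)ˣ, u ∈ G' ↔ ∀ f : MvPolynomial (m × m) ℚ,
      (∀ g ∈ M.gp, aeval (crd ((g : (Matrix m m ℂ)ˣ) : Matrix m m ℂ)) f = 0) →
        aeval (crd (u : Matrix m m ℂ)) f = 0 := by
    intro u
    have h1 : u ∈ (G' : Set (Matrix m m ℂ)ˣ) ↔ u ∈ G' := Iff.rfl
    rw [← h1, hG']
    rfl
  have hle : M.gp ≤ G' := fun g hg => (hmem g).2 fun f hf => hf g hg
  refine ⟨G', ⟨⟨{f | ∀ g ∈ M.gp, aeval (crd ((g : (Matrix m m ℂ)ˣ) : Matrix m m ℂ)) f = 0}, ?_⟩,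
    G', 1, ?_⟩, ?_, hle, fun u hu f hf => (hmem u).1 hu f hf⟩
  · rw [hG']
    rfl
  · ext u
    rw [inv_one]
    change u ∈ G' ↔ 1 * u ∈ G'
    rw [one_mul]
  · rintro g hg d ⟨μ, hμ, hd⟩
    have h1 : d = dg M (Units.mk0 μ hμ) := Units.ext hd
    rw [h1]
    exact G'.mul_mem hg (hle (dg_mem M _))

theorem main_k {M : Motive m X} {p : (Matrix m m ℂ)ˣ} (hp : p ∈ M.gp)
    (hdeg : ∀ x, Odd (M.deg x) ∧ 3 ≤ M.deg x) (hinj : Function.Injective M.deg)
    (hpi : (p : Matrix m m ℂ) M.t M.t = 2 * Real.pi * Complex.I)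
    (hzeta : ∀ x, (p : Matrix m m ℂ) M.o (M.s x) = riemannZeta (M.deg x))
    (A : Set (Matrix m m ℂ)ˣ) (hA : IsTorsor A) (hAh : Homogeneous M A) (hpA : p ∈ A) :
    A ⊆ clos p ↔ IsTorsor (clos p) ∧ (∀ (x : X) (q : ℚ), riemannZeta (M.deg x) ≠ q) ∧
      ∀ T : Set (Matrix m m ℂ)ˣ, IsTorsor T → Homogeneous M T → p ∈ T → T ⊆ A → T = A := by
  have hmain := main_zeta (Pool.Agent.W906.MTZ.T_TOR Pool.Agent.W804.MTZ.T_FIT) hp hdeg hinj
    hpi hzeta
  have hind := Pool.Agent.W177.MTH.T_ZETA m X M (p : Matrix m m ℂ) hdeg hinj hpi hzeta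
  -- the torsor of motivic periods is contained in `A`
  have hgpA : (M.gp : Set (Matrix m m ℂ)ˣ) ⊆ A := noSub_h hp hind hA hAh hpA
  have hclosT : ∀ T : Set (Matrix m m ℂ)ˣ, IsTorsor T → p ∈ T → clos p ⊆ T := by
    rintro T ⟨⟨P, hP⟩, -⟩ hpT u hu
    rw [hP] at hpT ⊢
    exact fun f hf => hu f (hpT f hf)
  constructor
  · intro h
    have hPC : PeriodConjecture M p := hgpA.trans h
    obtain ⟨h1, h2⟩ := hmain.2.1 hPC
    refine ⟨h1, h2, fun T hT _ hpT hTA => Set.Subset.antisymm hTA ?_⟩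
    exact h.trans (hclosT T hT hpT)
  · rintro ⟨h1, h2, h3⟩
    have hPC : PeriodConjecture M p := hmain.2.2 ⟨h1, h2⟩
    obtain ⟨Z, hZ, hZh, hgpZ, hZf⟩ := closure_torsor M
    have hZcl : Z ⊆ clos p := fun u hu f hf => hZf u hu f fun g hg => hPC hg f hf
    have hZA : Z ⊆ A := by
      obtain ⟨⟨P, hP⟩, -⟩ := hA
      intro u hu
      rw [hP]
      intro f hf
      refine hZf u hu f fun g hg => ?_
      have h4 := hgpA hg
      rw [hP] at h4
      exact h4 f hf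
    rw [← h3 Z hZ hZh (hgpZ hp) hZA]
    exact hZcl

end Pool.Agent.W516.MTK
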